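import Pool.Agent.N101.CB.EMain

set_option autoImplicit false

/-! # The motivic monodromy conjecture for hypersurfaces: cubic polynomials suffice

Let `k` be a subfield of `ℂ` (a field with an embedding in `ℂ`). `Conj f`: there is a finite set `S` of pairs
`(a, b)`, `b > 0`, such that the motivic zeta function `Z^mot_f(T)` of the polynomial `f` over `k` lies in
`𝓜_k[T, 1 / (1 - 𝕃 ^ a T ^ b)]_{(a, b) ∈ S}`, and such that for every `(a, b)` in `S` every polynomial which
satisfies a functional equation of `f` has a root in `a / b + ℤ`. By the theorem of Malgrange and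
Kashiwara the second condition means that `exp(2 π i a / b)` is a monodromy eigenvalue of `f`.

The theorem: the conjecture holds for all non-constant polynomials over `k`, in any number of variables, if
and only if it holds for the cubic polynomials of the form `q_0(x) + ∑_k t_k q_k(x)`, where the `q_0, q_k` have
degree at most two and all monomials are squarefree (`Cub`).

Proof. By steps `f ↦ f + (t + c x ^ b) (w - x ^ a)`, images of `f + t w` by automorphisms, `c x ^ (a + b)` a
monomial of `f`, all monomials become squarefree, of degree at most one in the `t` and at most two in the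
other variables. For the zeta functions the formula
`𝕃 ^ 3 (1 - 𝕃⁻¹ T) Z_f(T) = (𝕃 ^ 2 + 𝕃) U_1(𝕃 T) - U_2(𝕃 ^ 2 T)`,
`U_1 = (1 - 𝕃⁻¹ T) Z_{f + t w}(T)`, `U_2 = (1 - 𝕃⁻¹ T) Z_{f + t w + y z}(T)`, is used, and for the
functional equations: `(s + 1) c(s)` for `f` gives `(s + 1) c(s + 1)` for `f + t w`. -/

namespace Pool.Agent.Results.MP_432c1b_ag.CubicPolynomials

open MvPolynomial Pool.Agent.W428.MOT Pool.Agent.N101.CB
open Pool.Agent.W375.MG (zetaG)
open Pool.Agent.H628R4.TP (IsBFunction)

/-- The conjecture for `f`, see above. `zetaG f univ {1}` is the motivic zeta function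
`Z^mot_f(T) = ∑_{d ≥ 0} [X_{d, 1}] 𝕃 ^ (-m d) T ^ d`, where `X_{d, 1}` consists of the jets `φ` of level `d` with
`f(φ) = t ^ d mod t ^ (d + 1)`. -/
def Conj {k : Type} [Field k] [Algebra k ℂ] {m : ℕ} (f : MvPolynomial (Fin m) k) : Prop :=
  ∃ S : Finset (ℤ × ℤ), (∀ p ∈ S, 0 < p.2 ∧ ∀ b : Polynomial ℂ,
      IsBFunction (map (algebraMap k ℂ) f) b →
        ∃ l : ℤ, b.eval ((((p.1 : ℚ) / p.2 : ℚ) : ℂ) + l) = 0) ∧
    zetaG f Set.univ {1} ∈ ratRing k S

/-- **Cubic polynomials suffice for the motivic monodromy conjecture (weak form).** Let `k` be a field with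
an embedding in `ℂ`. The conjecture holds for all non-constant polynomials over `k` if and only if it holds
for the cubic ones with `Cub f`. More precisely, it holds for `f` if it holds for
`f + (t + v(x)) (w - u(x))` and for `f + (t + v(x)) (w - u(x)) + y z`, for any polynomials `u`, `v`. -/
theorem result (k : Type) [Field k] [Algebra k ℂ] :
    ((∀ (m : ℕ) (f : MvPolynomial (Fin m) k), f.totalDegree ≠ 0 → Conj f) ↔
      ∀ (m : ℕ) (f : MvPolynomial (Fin m) k), Cub f → f.totalDegree ≠ 0 → Conj f) ∧
    ∀ (m : ℕ) (f u v : MvPolynomial (Fin m) k), f.totalDegree ≠ 0 → Conj (stp f u v) →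
      Conj (Pool.Agent.Y229.MS.addyz (stp f u v)) → Conj f :=
  ⟨⟨fun h m f _ hf => h m f hf, fun h m f hf => EM.weakMC_red h m f hf⟩,
    fun _ f u v hf h1 h2 => EM.weakMC_step f u v hf h1 h2⟩

end Pool.Agent.Results.MP_432c1b_ag.CubicPolynomials
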