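import Pool.Agent.N103.JetCl

set_option autoImplicit false

/-!
# The motivic monodromy conjecture for `h ∏_t (∑_j y_{t,j} f_{t,j}) ^ a_t`, where the ideals are built
# from the polynomials `h (f₀ + ∑ y_j f_j) ^ a`

Let `𝓘` be the least class of ideals with the following properties (`GlobLin`).

* `𝓘` contains all the principal ideals `(h(x₁, x₂) (f₀(x₁, x₂) + ∑ y_j f_j(x₁, x₂)) ^ a)`, with arbitrary
  polynomials `h`, `f₀`, `f_j`, not all `f_j = 0`, and `a ≥ 1` (`FF h f a`): all polynomials of degree at
  most one in all but two variables, their powers, and the products with polynomials in the two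
  variables.
* `𝓘` contains the unit ideal, the powers of a variable, all non-zero ideals of `ℂ[x, y]`, the ideals of
  `ℂ[x₀, x₁, x₂]` generated by forms of the same degree, three of which are algebraically independent,
  and the ideals generated by forms of the same degree without a common zero outside the origin.
* `𝓘` is closed under sums and products in disjoint sets of variables; it contains the principal ideal
  `(h(x) ∏_t (∑_j y_{t,j} f_{t,j}(x)) ^ a_t)` if it contains `h ∏_t (f_{t,j})_j ^ a_t`, and the powers of
  its principal ideals.

We consider the polynomials `F = h(x) ∏_t (∑_j y_{t,j} f_{t,j}(x)) ^ a_t`, with the ideal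
`J = h ∏_t (f_{t,j})_j ^ a_t` in `𝓘`, such that the greatest common divisor of the `a_t` is `1`, or `h` is
constant. For example, `F = ∑_i y_i F_i` or `F = y_0 F_0 + ∑_{i ≥ 1} y_i F_1 F_i`, where the `F_i` are
polynomials of degree at most one in all but two of their variables, in disjoint sets of variables. The
theorem: the motivic zeta function `∑_{m ≥ 0} [X_{m,1}] L^(-m N) T^m` of `F` lies in the ring
`M[T][(1 - L⁻ⁿ Tᵃ)⁻¹]`, where the `-n/a` are roots of the Bernstein-Sato polynomial; so the numbers
`exp(-2 π i n/a)` are eigenvalues of the monodromy (Malgrange, Kashiwara).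

The proof: the angular components of `F` along the arcs are uniformly distributed, because of the
factors which are linear in the `y_{t,j}` (`JetGlob`); so the zeta function is computed from the one of
the ideal `J`. A functional equation of `F`, with `b`, gives one of `J` with `b'`, where
`b(s) = b'(s) ∏_t ∏_{1 ≤ i ≤ a_t} (a_t s + i)` (`fm_form`). For `J` in `𝓘` see `globLin_main`; in
particular, for `F = h (f₀ + ∑ y_j f_j) ^ a`: if `b(s₀) ≠ 0` for the candidate pole `s₀` of an exceptional
curve `E` of a resolution in the plane, then the functional equation, pulled back to the neighbourhood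
of `E × {c}`, gives a rational solution of a differential equation of first order on `E`, so that at
most two points of `E` are special, and the denominator of `E` can be removed.
-/

namespace Pool.Agent.Results.MP_432c1b_ag.DegreeOneForms

open MvPolynomial Pool.Agent.W574.MO Pool.Agent.H628R4.TP Pool.Agent.R852.TP Pool.Agent.N103

/-- **The motivic monodromy conjecture, in the strong form, for
`F = h(x) ∏_t (∑_j y_{t,j} f_{t,j}(x)) ^ a_t`**, where the ideal `h ∏_t (f_{t,j})_j ^ a_t` is in the class
`GlobLin` of ideals, which is generated by the polynomials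
`h(x₁, x₂) (f₀(x₁, x₂) + ∑ y_j f_j(x₁, x₂)) ^ a`, the ideals in two variables and certain ideals generated
by forms. `M` is a commutative ring with a unit `L`, for example `M = K₀(Var_ℂ)[1/L]`, and
`Z = ∑_{m ≥ 0} [X_{m,1}] L^(-m N) T^m` is the motivic zeta function of `F` (`JetGlob`). Let `b` satisfy a
functional equation `b(s) F ^ s = P(s) F ^ (s + 1)`, where `P(s)` is a differential operator with
polynomial coefficients. Then `Z` lies in the ring `M[T][(1 - L⁻ⁿ Tᵃ)⁻¹]`, where the pairs
`a, n ≥ 1` are such that `-n/a` is a root of `b`. -/
theorem result {M : Type} [CommRing M] (L : Mˣ) {σ τ : Type} [Fintype τ] [DecidableEq τ]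
    [Nonempty τ] {κ : τ → Type} [∀ t, Fintype (κ t)] (a : τ → ℕ) (ha : ∀ t, 0 < a t)
    (h : MvPolynomial σ ℂ) (f : (t : τ) → κ t → MvPolynomial σ ℂ) (Z : PowerSeries M)
    (hZ : JetGlob L a h f Z) (b : Polynomial ℂ)
    (hb : IsBFunction (rename Sum.inr h *
      ∏ t, (∑ j, X (Sum.inl ⟨t, j⟩) * rename Sum.inr (f t j)) ^ a t :
        MvPolynomial ((Σ t, κ t) ⊕ σ) ℂ) b) :
    Z ∈ DenRing L (RootPair b) :=
  jetGlob_main a h f ha Z hZ b hb

end Pool.Agent.Results.MP_432c1b_ag.DegreeOneForms
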